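import Mathlib

set_option autoImplicit false

namespace Pool.Agent.Results.MP_66a881_co.Day

theorem even_pos (h x y z : ℤ) (hh : 1 ≤ h) (he : h % 2 = 0) (hp : (x + y + z) % 2 = 0)
    (hz : 0 ≤ z) (hn : |x| + |y| + z ≤ 2 * h) (e : x + h * y + (h ^ 2 + h + 1) * z = 0) :
    x = 0 ∧ y = 0 ∧ z = 0 := by
  have x1 := le_abs_self x
  have x2 := neg_le_abs x
  have y1 := le_abs_self y
  have y2 := neg_le_abs y
  have x0 := abs_nonneg x
  have y0 := abs_nonneg y
  obtain ⟨k, rfl⟩ : ∃ k, h = 2 * k := ⟨h / 2, by omega⟩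
  have z2 : z < 2 := by
    by_contra hc
    have a1 : -(2 * k * y) ≤ 2 * k * |y| := by nlinarith
    have a2 : |x| ≤ 2 * k * |x| := by nlinarith
    have a3 : 2 * k * (|x| + |y|) ≤ 2 * k * (2 * (2 * k) - z) :=
      mul_le_mul_of_nonneg_left (by linarith) (by linarith)
    nlinarith
  obtain rfl | rfl : z = 0 ∨ z = 1 := by omega
  · have ex : x = -2 * (k * y) := by linarith
    obtain ⟨s, rfl⟩ : ∃ s, y = 2 * s := ⟨y / 2, by omega⟩
    rcases lt_trichotomy s 0 with h | rfl | h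
    · nlinarith
    · simpa using ex
    · nlinarith
  · exfalso
    obtain ⟨t, rfl⟩ : ∃ t, y = t - 2 * k - 1 := ⟨y + 2 * k + 1, by ring⟩
    have ex : x = -2 * (k * t) - 1 := by linarith
    have : 1 ≤ t ∨ t ≤ -1 := by omega
    rcases this with h | h <;> nlinarith

theorem odd_pos (h x y z : ℤ) (hh : 1 ≤ h) (he : h % 2 = 1) (hp : (x + y + z) % 2 = 0)
    (hz : 0 ≤ z) (hn : |x| + |y| + z ≤ 2 * h) (e : 2 * x + h * y + (h ^ 2 + h + 4) * z = 0) :
    x = 0 ∧ y = 0 ∧ z = 0 := by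
  have x1 := le_abs_self x
  have x2 := neg_le_abs x
  have y1 := le_abs_self y
  have y2 := neg_le_abs y
  have x0 := abs_nonneg x
  have y0 := abs_nonneg y
  obtain ⟨k, rfl⟩ : ∃ k, h = 2 * k + 1 := ⟨h / 2, by omega⟩
  have k0 : 0 ≤ k := by omega
  have z2 : z < 2 := by
    by_contra hc
    have a1 : -((2 * k + 1) * y) ≤ (2 * k + 2) * |y| := by nlinarith
    have a2 : 2 * |x| ≤ (2 * k + 2) * |x| := by nlinarith
    have a3 : (2 * k + 2) * (|x| + |y|) ≤ (2 * k + 2) * (2 * (2 * k + 1) - z) :=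
      mul_le_mul_of_nonneg_left (by linarith) (by linarith)
    nlinarith
  obtain rfl | rfl : z = 0 ∨ z = 1 := by omega
  · have ex : 2 * x + 2 * (k * y) + y = 0 := by linarith
    obtain ⟨s, rfl⟩ : ∃ s, y = 2 * s := ⟨y / 2, by omega⟩
    have ex : x = -2 * (k * s) - s := by linarith
    obtain ⟨u, rfl⟩ : ∃ u, s = 2 * u := ⟨s / 2, by omega⟩
    rcases lt_trichotomy u 0 with h | rfl | h
    · nlinarith
    · simpa using ex
    · nlinarith
  · exfalso
    obtain ⟨t, rfl⟩ : ∃ t, y = t - 2 * k - 2 := ⟨y + 2 * k + 2, by ring⟩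
    have ex : 2 * x + 2 * (k * t) + t + 4 = 0 := by linarith
    obtain ⟨s, rfl⟩ : ∃ s, t = 2 * s := ⟨t / 2, by omega⟩
    have ex : x = -2 * (k * s) - s - 2 := by linarith
    have : 1 ≤ s ∨ s ≤ -1 := by omega
    rcases this with h | h
    · rcases k0.eq_or_lt with rfl | hk
      · omega
      · nlinarith
    · nlinarith

theorem gen (h p q r : ℤ) (n : ℕ) (hh : 1 ≤ h) (hp : 0 ≤ p) (hq : 0 ≤ q) (hpr : p ≤ r) (hqr : q ≤ r)
    (hn : 2 * h * r < n)
    (H : ∀ x y z : ℤ, (x + y + z) % 2 = 0 → 0 ≤ z → |x| + |y| + z ≤ 2 * h →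
      p * x + q * y + r * z = 0 → x = 0 ∧ y = 0 ∧ z = 0) :
    Set.InjOn (fun l : Fin 3 → ℤ => ∑ i, l i • (![(p : ZMod n), (q : ZMod n), (r : ZMod n)] i))
      {l | ∑ i, |l i| = h} := by
  intro l hl m hm e
  simp only [Set.mem_ofPred_eq, Fin.sum_univ_three, Matrix.cons_val_zero, Matrix.cons_val_one,
    Matrix.cons_val_two, Matrix.head_cons, Matrix.tail_cons, zsmul_eq_mul] at hl hm e
  have t0 := abs_sub (l 0) (m 0)
  have t1 := abs_sub (l 1) (m 1)
  have t2 := abs_sub (l 2) (m 2)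
  have par : ((l 0 - m 0) + (l 1 - m 1) + (l 2 - m 2)) % 2 = 0 := by
    rcases abs_cases (l 0) with h0 | h0 <;> rcases abs_cases (l 1) with h1 | h1 <;>
      rcases abs_cases (l 2) with h2 | h2 <;> rcases abs_cases (m 0) with g0 | g0 <;>
      rcases abs_cases (m 1) with g1 | g1 <;> rcases abs_cases (m 2) with g2 | g2 <;> omega
  set x := l 0 - m 0 with hx
  set y := l 1 - m 1 with hy
  set z := l 2 - m 2 with hz
  have dv : (n : ℤ) ∣ p * x + q * y + r * z := by
    rw [← ZMod.intCast_zmod_eq_zero_iff_dvd, hx, hy, hz]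
    push_cast
    linear_combination e
  have bd : |p * x + q * y + r * z| < n := by
    have b1 := abs_add_three (p * x) (q * y) (r * z)
    rw [abs_mul, abs_mul, abs_mul, abs_of_nonneg hp, abs_of_nonneg hq,
      abs_of_nonneg (hp.trans hpr)] at b1
    have b2 := mul_le_mul_of_nonneg_right hpr (abs_nonneg x)
    have b3 := mul_le_mul_of_nonneg_right hqr (abs_nonneg y)
    have b4 : r * (|x| + |y| + |z|) ≤ r * (2 * h) :=
      mul_le_mul_of_nonneg_left (by linarith) (hp.trans hpr)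
    linarith
  have z0 := Int.eq_zero_of_abs_lt_dvd dv bd
  have fin : x = 0 ∧ y = 0 ∧ z = 0 := by
    rcases le_total 0 z with h0 | h0
    · exact H x y z par h0 (by rw [← abs_of_nonneg h0]; linarith) z0
    · have := H (-x) (-y) (-z) (by omega) (by omega)
        (by rw [abs_neg, abs_neg, ← abs_of_nonpos h0]; linarith) (by linarith)
      omega
  funext i
  fin_cases i <;> simp <;> omega

theorem result (h n : ℕ) (hh : 1 ≤ h) (hn : 2 * h ^ 3 + 2 * h ^ 2 + 8 * h + 1 ≤ n) :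
    ∃ a : Fin 3 → ZMod n, Function.Injective a ∧
      Set.InjOn (fun l : Fin 3 → ℤ => ∑ i, l i • a i) {l | ∑ i, |l i| = h} := by
  have key : ∀ a : Fin 3 → ZMod n,
      Set.InjOn (fun l : Fin 3 → ℤ => ∑ i, l i • a i) {l | ∑ i, |l i| = h} →
      Function.Injective a := by
    intro a ha i j e
    by_contra hij
    have m : ∀ k : Fin 3, (Pi.single k (h : ℤ) : Fin 3 → ℤ) ∈ {l : Fin 3 → ℤ | ∑ i, |l i| = h} := by
      intro k
      fin_cases k <;> simp [Fin.sum_univ_three]
    have := ha (m i) (m j) (by simp [Pi.single_apply, e])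
    have := congrFun this i
    simp [Pi.single_apply, hij] at this
    omega
  have hh' : (1 : ℤ) ≤ h := by exact_mod_cast hh
  have hn' : 2 * (h : ℤ) ^ 3 + 2 * h ^ 2 + 8 * h + 1 ≤ n := by exact_mod_cast hn
  rcases Int.emod_two_eq_zero_or_one h with he | he
  · have := gen h 1 h (h ^ 2 + h + 1) n hh' (by norm_num) (by linarith) (by nlinarith)
      (by nlinarith) (by nlinarith) (fun x y z a b c d =>
        even_pos h x y z hh' he a b c (by linarith))
    exact ⟨_, key _ this, this⟩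
  · have := gen h 2 h (h ^ 2 + h + 4) n hh' (by norm_num) (by linarith) (by nlinarith)
      (by nlinarith) (by nlinarith) (fun x y z a b c d =>
        odd_pos h x y z hh' he a b c d)
    exact ⟨_, key _ this, this⟩

end Pool.Agent.Results.MP_66a881_co.Day
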